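import Pool.Agent.R560.Repair.Fields

/-!
# The Lunelli–Sce hyperoval of the projective plane of order sixteen
-/

set_option autoImplicit false

namespace Pool.Agent.R560.Repair

open Finset Matrix

def f4 (c : ℕ) : F4 := match c with
  | 0 => F4.z
  | 1 => F4.o
  | 2 => F4.w
  | _ => F4.v

def f16 (c : ℕ) : F16 := ⟨f4 (c % 4), f4 (c / 4)⟩

/-- The eighteen points. -/
def pts (i : Fin 18) (t : Fin 3) : F16 :=
  f16 ((![![1, 3, 5], ![1, 4, 7], ![1, 5, 6], ![1, 6, 2], ![1, 8, 15], ![1, 9, 14], ![1, 10, 8],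
    ![1, 11, 9], ![1, 12, 13], ![1, 13, 12], ![1, 14, 11], ![1, 15, 10], ![0, 1, 0], ![0, 0, 1],
    ![1, 0, 0], ![1, 1, 1], ![1, 2, 4], ![1, 7, 3]] : Fin 18 → Fin 3 → ℕ) i t)

/-- For every point two lines whose `F4`-combinations are secants missing the point. -/
def lns (i : Fin 18) (k : Fin 2) (t : Fin 3) : F16 :=
  f16 ((![![![14, 0, 0], ![15, 1, 15]], ![![13, 0, 15], ![2, 1, 8]], ![![10, 0, 8], ![11, 1, 12]],
    ![![14, 0, 0], ![15, 1, 15]], ![![14, 0, 8], ![12, 1, 4]], ![![13, 0, 15], ![2, 1, 8]],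
    ![![14, 0, 8], ![12, 1, 4]], ![![14, 0, 8], ![12, 1, 4]], ![![14, 0, 0], ![15, 1, 15]],
    ![![14, 0, 0], ![15, 1, 15]], ![![10, 0, 8], ![11, 1, 12]], ![![13, 0, 15], ![2, 1, 8]],
    ![![10, 5, 7], ![1, 4, 7]], ![![13, 0, 15], ![2, 1, 8]], ![![14, 0, 0], ![15, 1, 15]],
    ![![14, 0, 0], ![15, 1, 15]], ![![14, 0, 0], ![15, 1, 15]], ![![14, 0, 0], ![15, 1, 15]]] :
    Fin 18 → Fin 2 → Fin 3 → ℕ) i k t)

def det3 (x y z : Fin 3 → F16) : F16 :=
  x 0 * (y 1 * z 2 + y 2 * z 1) + x 1 * (y 0 * z 2 + y 2 * z 0) + x 2 * (y 0 * z 1 + y 1 * z 0)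

theorem det3_ne : ∀ i j k : Fin 18, i ≠ j → i ≠ k → j ≠ k → det3 (pts i) (pts j) (pts k) ≠ 0 := by
  decide +kernel

/-- The basis `1, η`. -/
def eta (c : Fin 2) : F16 := if c = 0 then ⟨1, 0⟩ else ⟨0, 1⟩

/-- Coordinates. -/
def comp (e : Fin 2) (x : F16) : F4 := if e = 0 then x.re else x.im

def hi (a : Fin (3 * 2)) : Fin 3 := ![0, 0, 1, 1, 2, 2] a

def lo (a : Fin (3 * 2)) : Fin 2 := ![0, 1, 0, 1, 0, 1] a

/-- The blocks over `F4`. -/
def H4 (j : Fin 18) : Matrix (Fin (3 * 2)) (Fin 2) F4 :=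
  fun a c => comp (lo a) (eta c * pts j (hi a))

/-- The repair matrices over `F4`. -/
def M4 (i : Fin 18) : Matrix (Fin 2) (Fin (3 * 2)) F4 :=
  fun k a => (lns i k (hi a) * eta (lo a)).im

def det2 (N : Matrix (Fin 2) (Fin 2) F4) : F4 := N 0 0 * N 1 1 - N 0 1 * N 1 0

theorem det2_eq (N : Matrix (Fin 2) (Fin 2) F4) : N.det = det2 N := Matrix.det_fin_two N

/-- The product of the repair matrix with a block. -/
def MH (i j : Fin 18) (k c : Fin 2) : F4 := ∑ a : Fin (3 * 2), M4 i k a * H4 j a c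

theorem MH_eq (i j : Fin 18) : M4 i * H4 j = fun k c => MH i j k c := rfl

theorem det_self : ∀ i : Fin 18, MH i i 0 0 * MH i i 1 1 - MH i i 0 1 * MH i i 1 0 ≠ 0 := by
  decide +kernel

theorem count10 : ∀ i : Fin 18, (univ.filter (fun j : Fin 18 => j.val < 14 ∧
    MH i j 0 0 * MH i j 1 1 - MH i j 0 1 * MH i j 1 0 = 0)).card = 10 := by
  decide +kernel

theorem combine : ∀ (e : Fin 2) (x : F16) (c0 c1 : F4),
    comp e (eta 0 * x) * c0 + comp e (eta 1 * x) * c1 = comp e (x * ⟨c0, c1⟩) := by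
  decide +kernel

theorem comp_add (e : Fin 2) (x y : F16) : comp e (x + y) = comp e x + comp e y := by
  unfold comp
  split_ifs <;> rfl

theorem ext_comp (x : F16) (h0 : comp 0 x = 0) (h1 : comp 1 x = 0) : x = 0 := by
  revert h0 h1
  revert x
  decide +kernel

/-- Three blocks are jointly injective. -/
theorem inj3 (i j k : Fin 18) (hij : i ≠ j) (hik : i ≠ k) (hjk : j ≠ k) (x y z : Fin 2 → F4)
    (h : (H4 i).mulVec x + ((H4 j).mulVec y + (H4 k).mulVec z) = 0) : x = 0 ∧ y = 0 ∧ z = 0 := by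
  have hrow : ∀ (j : Fin 18) (x : Fin 2 → F4) (a : Fin (3 * 2)),
      (H4 j).mulVec x a = comp (lo a) (pts j (hi a) * ⟨x 0, x 1⟩) := by
    intro j x a
    rw [← combine]
    simp only [Matrix.mulVec, dotProduct, Fin.sum_univ_two]
    rfl
  have hsum : ∀ t : Fin 3, pts i t * ⟨x 0, x 1⟩ + (pts j t * ⟨y 0, y 1⟩ + pts k t * ⟨z 0, z 1⟩)
      = 0 := by
    intro t
    have ha : ∀ a : Fin (3 * 2), comp (lo a) (pts i (hi a) * ⟨x 0, x 1⟩ +
        (pts j (hi a) * ⟨y 0, y 1⟩ + pts k (hi a) * ⟨z 0, z 1⟩)) = 0 := by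
      intro a
      rw [comp_add, comp_add, ← hrow, ← hrow, ← hrow]
      exact congrFun h a
    have hex : ∀ t : Fin 3, ∃ a b : Fin (3 * 2), hi a = t ∧ hi b = t ∧ lo a = 0 ∧ lo b = 1 := by
      decide
    obtain ⟨a, b, h1, h2, h3, h4⟩ := hex t
    apply ext_comp
    · have := ha a
      rw [h1, h3] at this
      exact this
    · have := ha b
      rw [h2, h4] at this
      exact this
  let A : Matrix (Fin 3) (Fin 3) F16 := Matrix.of ![pts i, pts j, pts k]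
  have hdet : Aᵀ.det ≠ 0 := by
    rw [Matrix.det_transpose, Matrix.det_fin_three]
    have h1 := det3_ne i j k hij hik hjk
    have hneg : ∀ x y : F16, x - y = x + y := by decide +kernel
    intro hc
    apply h1
    rw [← hc]
    simp only [hneg]
    unfold det3
    change _ = pts i 0 * pts j 1 * pts k 2 + pts i 0 * pts j 2 * pts k 1 +
      pts i 1 * pts j 0 * pts k 2 + pts i 1 * pts j 2 * pts k 0 + pts i 2 * pts j 0 * pts k 1 +
      pts i 2 * pts j 1 * pts k 0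
    ring
  have hmul : Aᵀ.mulVec ![⟨x 0, x 1⟩, ⟨y 0, y 1⟩, ⟨z 0, z 1⟩] = 0 := by
    funext t
    simp only [Matrix.mulVec, dotProduct, Fin.sum_univ_three]
    have := hsum t
    rw [← add_assoc] at this
    exact this
  have hz := Matrix.eq_zero_of_mulVec_eq_zero hdet hmul
  have e0 : (⟨x 0, x 1⟩ : F16) = 0 := congrFun hz 0
  have e1 : (⟨y 0, y 1⟩ : F16) = 0 := congrFun hz 1
  have e2 : (⟨z 0, z 1⟩ : F16) = 0 := congrFun hz 2
  have hx : ∀ x : Fin 2 → F4, (⟨x 0, x 1⟩ : F16) = 0 → x = 0 := by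
    intro x hx
    have h0 : x 0 = 0 := congrArg F16.re hx
    have h1 : x 1 = 0 := congrArg F16.im hx
    funext a
    fin_cases a
    · exact h0
    · exact h1
  exact ⟨hx x e0, hx y e1, hx z e2⟩

end Pool.Agent.R560.Repair
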