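import Mathlib

/-!
# Linear repair of MDS array codes: definitions and the general lower bound
-/

set_option autoImplicit false

namespace Pool.Agent.R560.Repair

open Finset Matrix

variable {F : Type*} [Field F] {n r ℓ : ℕ}

/-- The MDS condition for the parity-check matrix `H = [H_1 ... H_n]` with blocks
`H_i : F^{rℓ × ℓ}`: for every set `I` of `r` blocks the square matrix `[H_i]_{i ∈ I}` is
invertible, that is, `(C_i)_{i ∈ I} ↦ ∑ H_i C_i` is a bijection onto `F^{rℓ}`. -/
def IsMDS (H : Fin n → Matrix (Fin (r * ℓ)) (Fin ℓ) F) : Prop :=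
  ∀ I : Finset (Fin n), I.card = r →
    Function.Bijective (fun C : I → Fin ℓ → F => ∑ i : I, (H i).mulVec (C i))

/-- `M` is a repair matrix for node `i`. -/
def IsRepair (H : Fin n → Matrix (Fin (r * ℓ)) (Fin ℓ) F) (i : Fin n)
    (M : Matrix (Fin ℓ) (Fin (r * ℓ)) F) : Prop := IsUnit (M * H i)

/-- The repair bandwidth `∑_{j ≠ i} rank (M H_j)`. -/
noncomputable def BW (H : Fin n → Matrix (Fin (r * ℓ)) (Fin ℓ) F) (i : Fin n)
    (M : Matrix (Fin ℓ) (Fin (r * ℓ)) F) : ℕ := ∑ j ∈ univ.erase i, (M * H j).rank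

/-- `β_i`: the least repair bandwidth of node `i`. -/
noncomputable def beta (H : Fin n → Matrix (Fin (r * ℓ)) (Fin ℓ) F) (i : Fin n) : ℕ :=
  sInf {b | ∃ M, IsRepair H i M ∧ BW H i M = b}

/-- `β_avg`: the mean of the `β_i`. -/
noncomputable def betaAvg (H : Fin n → Matrix (Fin (r * ℓ)) (Fin ℓ) F) : ℚ :=
  (∑ i, (beta H i : ℚ)) / n

/-- `B(n, r, ℓ, q) = ℓ (n - 1) - (r - 1) (q^ℓ - 1) / (q - 1)`. -/
def boundB (n r ℓ q : ℕ) : ℚ :=
  (ℓ : ℚ) * ((n : ℚ) - 1) - ((r : ℚ) - 1) * (((q : ℚ) ^ ℓ - 1) / ((q : ℚ) - 1))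

/-- Number of vectors annihilated by a matrix. -/
theorem card_vecMul_ker [Fintype F] [DecidableEq F] (N : Matrix (Fin ℓ) (Fin ℓ) F) :
    (univ.filter (fun v : Fin ℓ → F => v ᵥ* N = 0)).card = Fintype.card F ^ (ℓ - N.rank) := by
  have h1 := LinearMap.finrank_range_add_finrank_ker (Nᵀ.mulVecLin)
  have h2 : Module.finrank F (LinearMap.range Nᵀ.mulVecLin) = N.rank := by
    rw [← Matrix.rank_transpose]
    rfl
  rw [h2, Module.finrank_fintype_fun_eq_card, Fintype.card_fin] at h1
  have h3 : Nat.card (LinearMap.ker Nᵀ.mulVecLin) = Fintype.card F ^ (ℓ - N.rank) := by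
    have := Module.natCard_eq_pow_finrank (K := F) (V := LinearMap.ker Nᵀ.mulVecLin)
    rw [this, Nat.card_eq_fintype_card]
    congr 1
    omega
  rw [← h3]
  have h4 : Nat.card (LinearMap.ker Nᵀ.mulVecLin) = Nat.card {v : Fin ℓ → F // v ᵥ* N = 0} := by
    apply Nat.card_congr
    apply Equiv.subtypeEquivRight
    intro v
    rw [LinearMap.mem_ker, Matrix.mulVecLin_apply, Matrix.mulVec_transpose]
  rw [h4, Nat.card_eq_fintype_card, Fintype.card_subtype]

theorem pow_sub_one_ge (q d : ℕ) (hq : 2 ≤ q) : (q - 1) * d ≤ q ^ d - 1 := by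
  induction d with
  | zero => simp
  | succ d ih =>
    have h1 : 1 ≤ q ^ d := Nat.one_le_pow _ _ (by omega)
    have h2 : q ^ (d + 1) = q ^ d + (q - 1) * q ^ d := by
      rw [pow_succ]
      obtain ⟨k, rfl⟩ : ∃ k, q = k + 1 := ⟨q - 1, by omega⟩
      rw [Nat.add_sub_cancel]
      ring
    have h3 : (q - 1) * 1 ≤ (q - 1) * q ^ d := Nat.mul_le_mul_left _ h1
    rw [Nat.mul_add]
    omega

/-- The (known) lower bound `BW_i(M) ≥ B`. -/
theorem lower_bound [Fintype F] (hr : 1 ≤ r)
    (H : Fin n → Matrix (Fin (r * ℓ)) (Fin ℓ) F) (hH : IsMDS H) (i : Fin n)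
    (M : Matrix (Fin ℓ) (Fin (r * ℓ)) F) (hM : IsRepair H i M) :
    (Fintype.card F - 1) * (ℓ * (n - 1)) ≤
      (Fintype.card F - 1) * BW H i M + (Fintype.card F ^ ℓ - 1) * (r - 1) := by
  classical
  set q := Fintype.card F with hq
  have hq2 : 2 ≤ q := Fintype.one_lt_card
  -- a nonzero combination of the rows annihilates at most `r - 1` blocks
  have key : ∀ v : Fin ℓ → F, v ≠ 0 →
      ((univ.erase i).filter (fun j => v ᵥ* (M * H j) = 0)).card ≤ r - 1 := by
    intro v hv
    by_contra hc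
    obtain ⟨I, hI, hIc⟩ := Finset.exists_subset_card_eq (n := r)
      (s := (univ.erase i).filter (fun j => v ᵥ* (M * H j) = 0)) (by omega)
    have hu : v ᵥ* M = 0 := by
      have hz : ∀ w : Fin (r * ℓ) → F, (v ᵥ* M) ⬝ᵥ w = 0 := by
        intro w
        obtain ⟨C, hC⟩ := (hH I hIc).2 w
        rw [← hC]
        simp only
        rw [dotProduct_sum]
        apply Finset.sum_eq_zero
        intro j _
        rw [dotProduct_mulVec, vecMul_vecMul]
        have := (mem_filter.1 (hI j.2)).2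
        rw [this, zero_dotProduct]
      funext a
      have := hz (Pi.single a 1)
      rw [dotProduct_single, mul_one] at this
      exact this
    apply hv
    have h1 : v ᵥ* (M * H i) = 0 := by
      rw [← vecMul_vecMul, hu, zero_vecMul]
    have h2 : IsUnit (M * H i) := hM
    obtain ⟨N, hN⟩ := h2.exists_right_inv
    calc v = v ᵥ* (M * H i * N) := by rw [hN, vecMul_one]
      _ = (v ᵥ* (M * H i)) ᵥ* N := by rw [vecMul_vecMul]
      _ = 0 := by rw [h1, zero_vecMul]
  -- double counting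
  have hcount : ∑ j ∈ univ.erase i,
      ((univ.filter (fun v : Fin ℓ → F => v ≠ 0)).filter (fun v => v ᵥ* (M * H j) = 0)).card =
      ∑ v ∈ univ.filter (fun v : Fin ℓ → F => v ≠ 0),
        ((univ.erase i).filter (fun j => v ᵥ* (M * H j) = 0)).card := by
    simp only [Finset.card_filter]
    rw [Finset.sum_comm]
  have hR : ∑ v ∈ univ.filter (fun v : Fin ℓ → F => v ≠ 0),
        ((univ.erase i).filter (fun j => v ᵥ* (M * H j) = 0)).card ≤ (q ^ ℓ - 1) * (r - 1) := by
    have hc : (univ.filter (fun v : Fin ℓ → F => v ≠ 0)).card = q ^ ℓ - 1 := by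
      rw [Finset.filter_ne' univ (0 : Fin ℓ → F), Finset.card_erase_of_mem (mem_univ _),
        Finset.card_univ, Fintype.card_fun, Fintype.card_fin]
    calc _ ≤ ∑ v ∈ univ.filter (fun v : Fin ℓ → F => v ≠ 0), (r - 1) :=
          Finset.sum_le_sum (fun v hv => key v (mem_filter.1 hv).2)
      _ = _ := by rw [Finset.sum_const, hc, smul_eq_mul]
  have hL : ∀ j : Fin n, (q - 1) * (ℓ - (M * H j).rank) ≤
      ((univ.filter (fun v : Fin ℓ → F => v ≠ 0)).filter
        (fun v => v ᵥ* (M * H j) = 0)).card := by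
    intro j
    have h1 : ((univ.filter (fun v : Fin ℓ → F => v ≠ 0)).filter
        (fun v => v ᵥ* (M * H j) = 0)) =
        (univ.filter (fun v : Fin ℓ → F => v ᵥ* (M * H j) = 0)).erase 0 := by
      ext v
      simp only [mem_filter, mem_univ, true_and, mem_erase]
    rw [h1, Finset.card_erase_of_mem (by simp), card_vecMul_ker]
    exact pow_sub_one_ge q _ hq2
  have hsum : (q - 1) * ∑ j ∈ univ.erase i, (ℓ - (M * H j).rank) ≤ (q ^ ℓ - 1) * (r - 1) := by
    rw [Finset.mul_sum]
    exact (Finset.sum_le_sum (fun j _ => hL j)).trans (hcount ▸ hR)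
  have hrank : ∀ j : Fin n, ℓ = (M * H j).rank + (ℓ - (M * H j).rank) := by
    intro j
    have := Matrix.rank_le_width (M * H j)
    omega
  have htot : ℓ * (n - 1) = BW H i M + ∑ j ∈ univ.erase i, (ℓ - (M * H j).rank) := by
    unfold BW
    rw [← Finset.sum_add_distrib, Finset.sum_congr rfl (fun j _ => (hrank j).symm),
      Finset.sum_const, Finset.card_erase_of_mem (mem_univ _), Finset.card_univ,
      Fintype.card_fin, smul_eq_mul, mul_comm]
  rw [htot, Nat.mul_add]
  omega

end Pool.Agent.R560.Repair
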