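import Pool.Agent.R560.Repair.Defs

/-!
# Computable fields with four and sixteen elements
-/

set_option autoImplicit false

namespace Pool.Agent.R560.Repair

/-- Elements of the field with four elements: `0`, `1`, `w`, `w² = w + 1`. -/
inductive F4
  | z | o | w | v
  deriving DecidableEq

namespace F4

def add : F4 → F4 → F4
  | z, y => y
  | x, z => x
  | o, o => z
  | o, w => v
  | o, v => w
  | w, o => v
  | w, w => z
  | w, v => o
  | v, o => w
  | v, w => o
  | v, v => z

def mul : F4 → F4 → F4
  | z, _ => z
  | _, z => z
  | o, y => y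
  | x, o => x
  | w, w => v
  | w, v => o
  | v, w => o
  | v, v => w

def inv : F4 → F4
  | z => z
  | o => o
  | w => v
  | v => w

instance : Fintype F4 := ⟨{z, o, w, v}, by intro x; cases x <;> decide⟩

instance : Zero F4 := ⟨z⟩
instance : One F4 := ⟨o⟩
instance : Add F4 := ⟨add⟩
instance : Mul F4 := ⟨mul⟩
instance : Neg F4 := ⟨fun x => x⟩
instance : Inv F4 := ⟨inv⟩

instance : CommRing F4 where
  add_assoc := by decide
  zero_add := by decide
  add_zero := by decide
  add_comm := by decide
  left_distrib := by decide
  right_distrib := by decide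
  zero_mul := by decide
  mul_zero := by decide
  mul_assoc := by decide
  one_mul := by decide
  mul_one := by decide
  mul_comm := by decide
  neg_add_cancel := by decide
  nsmul := nsmulRec
  zsmul := zsmulRec

instance : Field F4 where
  inv := inv
  exists_pair_ne := ⟨z, o, by decide⟩
  mul_inv_cancel := by decide
  inv_zero := by decide
  nnqsmul := _
  nnqsmul_def := fun _ _ => rfl
  qsmul := _
  qsmul_def := fun _ _ => rfl

theorem card : Fintype.card F4 = 4 := by decide

end F4

/-- Elements `re + im η`, `η² = η + w`, of the field with sixteen elements. -/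
structure F16 where
  re : F4
  im : F4
  deriving DecidableEq

namespace F16

def equiv : F16 ≃ F4 × F4 := ⟨fun x => (x.re, x.im), fun x => ⟨x.1, x.2⟩, fun _ => rfl, fun _ => rfl⟩

instance : Fintype F16 := Fintype.ofEquiv _ equiv.symm

instance : Zero F16 := ⟨⟨0, 0⟩⟩
instance : One F16 := ⟨⟨1, 0⟩⟩
instance : Add F16 := ⟨fun x y => ⟨x.re + y.re, x.im + y.im⟩⟩
instance : Mul F16 := ⟨fun x y =>
  ⟨x.re * y.re + F4.w * (x.im * y.im), x.re * y.im + x.im * y.re + x.im * y.im⟩⟩
instance : Neg F16 := ⟨fun x => x⟩

theorem add_re (x y : F16) : (x + y).re = x.re + y.re := rfl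
theorem add_im (x y : F16) : (x + y).im = x.im + y.im := rfl

instance : CommRing F16 where
  add_assoc := by decide +kernel
  zero_add := by decide +kernel
  add_zero := by decide +kernel
  add_comm := by decide +kernel
  left_distrib := by decide +kernel
  right_distrib := by decide +kernel
  zero_mul := by decide +kernel
  mul_zero := by decide +kernel
  mul_assoc := by decide +kernel
  one_mul := by decide +kernel
  mul_one := by decide +kernel
  mul_comm := by decide +kernel
  neg_add_cancel := by decide +kernel
  nsmul := nsmulRec
  zsmul := zsmulRec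

instance : IsDomain F16 := by
  have h : ∀ a b : F16, a * b = 0 → a = 0 ∨ b = 0 := by decide +kernel
  have : NoZeroDivisors F16 := ⟨fun {a b} hab => h a b hab⟩
  have : Nontrivial F16 := ⟨0, 1, by decide⟩
  exact NoZeroDivisors.to_isDomain F16

end F16

end Pool.Agent.R560.Repair
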