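import Pool.Agent.R560.Repair.Data

/-!
# An MDS array code over the field with four elements attaining the repair bound
-/

set_option autoImplicit false

namespace Pool.Agent.R560.Repair

open Finset Matrix

theorem rank_le_one {F : Type*} [Field F] [Fintype F] (N : Matrix (Fin 2) (Fin 2) F)
    (h : N.det = 0) : N.rank ≤ 1 := by
  classical
  obtain ⟨v, hv, hvN⟩ := Matrix.exists_vecMul_eq_zero_iff.2 h
  have h1 := card_vecMul_ker N
  by_contra hc
  have h2 : 2 - N.rank = 0 := by omega
  rw [h2, pow_zero, Finset.card_eq_one] at h1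
  obtain ⟨w, hw⟩ := h1
  have a1 : v ∈ ({w} : Finset (Fin 2 → F)) := by
    rw [← hw, mem_filter]
    exact ⟨mem_univ _, hvN⟩
  have a2 : (0 : Fin 2 → F) ∈ ({w} : Finset (Fin 2 → F)) := by
    rw [← hw, mem_filter]
    exact ⟨mem_univ _, zero_vecMul _⟩
  rw [mem_singleton] at a1 a2
  exact hv (a1.trans a2.symm)

variable {F : Type*} [Field F] [Fintype F] (e : F4 ≃+* F) {n : ℕ} (hn : n ≤ 18)

/-- The blocks over `F`. -/
def HH (j : Fin n) : Matrix (Fin (3 * 2)) (Fin 2) F := (H4 (Fin.castLE hn j)).map e

/-- The repair matrices over `F`. -/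
def MM (i : Fin n) : Matrix (Fin 2) (Fin (3 * 2)) F := (M4 (Fin.castLE hn i)).map e

theorem mul_map (i j : Fin n) : MM e hn i * HH e hn j =
    (M4 (Fin.castLE hn i) * H4 (Fin.castLE hn j)).map e := by
  unfold MM HH
  rw [Matrix.map_mul]

theorem det_map' (i j : Fin n) : (MM e hn i * HH e hn j).det =
    e (MH (Fin.castLE hn i) (Fin.castLE hn j) 0 0 * MH (Fin.castLE hn i) (Fin.castLE hn j) 1 1 -
      MH (Fin.castLE hn i) (Fin.castLE hn j) 0 1 * MH (Fin.castLE hn i) (Fin.castLE hn j) 1 0) := by
  rw [mul_map, Matrix.det_fin_two, map_sub, map_mul, map_mul]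
  rfl

theorem isMDS : IsMDS (r := 3) (ℓ := 2) (HH e hn) := by
  classical
  intro I hI
  have hF : Fintype.card F = 4 := by
    rw [← F4.card]
    exact (Fintype.card_congr e.toEquiv).symm
  rw [Fintype.bijective_iff_injective_and_card]
  constructor
  · intro C C' hCC
    simp only at hCC
    have hD : ∑ i : I, (HH e hn i).mulVec (C i - C' i) = 0 := by
      simp only [Matrix.mulVec_sub]
      rw [Finset.sum_sub_distrib, hCC, sub_self]
    obtain ⟨a, b, c, hab, hac, hbc, rfl⟩ := Finset.card_eq_three.1 hI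
    let D : Fin n → Fin 2 → F := fun i => if h : i ∈ ({a, b, c} : Finset (Fin n)) then
      C ⟨i, h⟩ - C' ⟨i, h⟩ else 0
    have hD' : ∑ i ∈ ({a, b, c} : Finset (Fin n)), (HH e hn i).mulVec (D i) = 0 := by
      rw [← Finset.sum_coe_sort, ← hD]
      apply Finset.sum_congr rfl
      intro i _
      have : D i = C i - C' i := by
        change (if h : (i : Fin n) ∈ ({a, b, c} : Finset (Fin n)) then
          C ⟨i, h⟩ - C' ⟨i, h⟩ else 0) = _
        rw [dif_pos i.2]
      rw [this]
    rw [Finset.sum_insert (by simp [hab, hac]), Finset.sum_insert (by simp [hbc]),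
      Finset.sum_singleton] at hD'
    have key : ∀ (j : Fin n) (x : Fin 2 → F) (r : Fin (3 * 2)),
        e.symm ((HH e hn j).mulVec x r) = (H4 (Fin.castLE hn j)).mulVec (fun t => e.symm (x t)) r := by
      intro j x r
      simp only [Matrix.mulVec, dotProduct, map_sum, map_mul]
      apply Finset.sum_congr rfl
      intro t _
      congr 1
      exact e.symm_apply_apply _
    have hz : (H4 (Fin.castLE hn a)).mulVec (fun t => e.symm (D a t)) +
        ((H4 (Fin.castLE hn b)).mulVec (fun t => e.symm (D b t)) +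
          (H4 (Fin.castLE hn c)).mulVec (fun t => e.symm (D c t))) = 0 := by
      funext r
      have h1 := congrFun hD' r
      rw [Pi.add_apply, Pi.add_apply] at h1 ⊢
      rw [← key, ← key, ← key, ← map_add, ← map_add, h1]
      exact map_zero _
    have hne : ∀ x y : Fin n, x ≠ y → Fin.castLE hn x ≠ Fin.castLE hn y := by
      intro x y hxy h
      exact hxy (Fin.castLE_injective hn h)
    obtain ⟨ha, hb, hc⟩ := inj3 _ _ _ (hne a b hab) (hne a c hac) (hne b c hbc) _ _ _ hz
    have hDz : ∀ i ∈ ({a, b, c} : Finset (Fin n)), D i = 0 := by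
      intro i hi
      rw [mem_insert, mem_insert, mem_singleton] at hi
      have hs : ∀ x : Fin 2 → F, (fun t => e.symm (x t)) = 0 → x = 0 := by
        intro x hx
        funext t
        have := congrFun hx t
        exact (map_eq_zero_iff _ e.symm.injective).1 this
      rcases hi with rfl | rfl | rfl
      · exact hs _ ha
      · exact hs _ hb
      · exact hs _ hc
    funext i
    have h1 := hDz i i.2
    change (if h : (i : Fin n) ∈ ({a, b, c} : Finset (Fin n)) then
          C ⟨i, h⟩ - C' ⟨i, h⟩ else 0) = 0 at h1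
    rw [dif_pos i.2, sub_eq_zero] at h1
    exact h1
  · rw [Fintype.card_fun, Fintype.card_fun, Fintype.card_fun, Fintype.card_coe, hI, hF,
      Fintype.card_fin, Fintype.card_fin]
    norm_num

theorem isRepair (i : Fin n) : IsRepair (r := 3) (ℓ := 2) (HH e hn) i (MM e hn i) := by
  unfold IsRepair
  rw [Matrix.isUnit_iff_isUnit_det, isUnit_iff_ne_zero, det_map']
  rw [Ne, map_eq_zero_iff e e.injective]
  exact det_self _

theorem bw_le (h14 : 14 ≤ n) (i : Fin n) :
    BW (r := 3) (ℓ := 2) (HH e hn) i (MM e hn i) + 10 ≤ 2 * (n - 1) := by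
  classical
  set Z := (univ.erase i).filter (fun j => (MM e hn i * HH e hn j).det = 0) with hZ
  have hcard : 10 ≤ Z.card := by
    have h1 := count10 (Fin.castLE hn i)
    rw [← h1]
    have hsub : (univ.filter (fun j : Fin 18 => j.val < 14 ∧
        MH (Fin.castLE hn i) j 0 0 * MH (Fin.castLE hn i) j 1 1 -
          MH (Fin.castLE hn i) j 0 1 * MH (Fin.castLE hn i) j 1 0 = 0)) ⊆
        Z.image (Fin.castLE hn) := by
      intro j hj
      rw [mem_filter] at hj
      obtain ⟨_, hj1, hj2⟩ := hj
      rw [mem_image]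
      have hjn : j.val < n := by omega
      have hcast : Fin.castLE hn ⟨j.val, hjn⟩ = j := Fin.ext rfl
      refine ⟨⟨j.val, hjn⟩, ?_, hcast⟩
      rw [hZ, mem_filter, mem_erase]
      refine ⟨⟨?_, mem_univ _⟩, ?_⟩
      · intro hji
        rw [← hji, hcast] at hj2
        exact det_self j hj2
      · rw [det_map', hcast, hj2, map_zero]
    exact (Finset.card_le_card hsub).trans Finset.card_image_le
  unfold BW
  have hle : ∀ j ∈ univ.erase i, (MM e hn i * HH e hn j).rank +
      (if (MM e hn i * HH e hn j).det = 0 then 1 else 0) ≤ 2 := by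
    intro j _
    split_ifs with h
    · have := rank_le_one _ h
      omega
    · have := Matrix.rank_le_width (MM e hn i * HH e hn j)
      omega
  have hs := Finset.sum_le_sum hle
  rw [Finset.sum_add_distrib, ← Finset.card_filter, Finset.sum_const,
    Finset.card_erase_of_mem (mem_univ _), Finset.card_univ, Fintype.card_fin, smul_eq_mul] at hs
  rw [← hZ] at hs
  omega

theorem beta_eq (h14 : 14 ≤ n) (i : Fin n) :
    beta (r := 3) (ℓ := 2) (HH e hn) i = 2 * n - 12 := by
  have hF : Fintype.card F = 4 := by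
    rw [← F4.card]
    exact (Fintype.card_congr e.toEquiv).symm
  have hlow : ∀ M, IsRepair (r := 3) (ℓ := 2) (HH e hn) i M →
      2 * n - 12 ≤ BW (r := 3) (ℓ := 2) (HH e hn) i M := by
    intro M hM
    have := lower_bound (by norm_num) (HH e hn) (isMDS e hn) i M hM
    rw [hF] at this
    norm_num at this
    omega
  have hup := bw_le e hn h14 i
  unfold beta
  apply le_antisymm
  · apply Nat.sInf_le
    refine ⟨MM e hn i, isRepair e hn i, ?_⟩
    have := hlow _ (isRepair e hn i)
    omega
  · apply le_csInf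
    · exact ⟨_, MM e hn i, isRepair e hn i, rfl⟩
    · rintro b ⟨M, hM, rfl⟩
      exact hlow M hM

theorem betaAvg_eq (h14 : 14 ≤ n) :
    betaAvg (r := 3) (ℓ := 2) (HH e hn) = boundB n 3 2 4 := by
  unfold betaAvg boundB
  rw [Finset.sum_congr rfl (fun i _ => by rw [beta_eq e hn h14 i])]
  rw [Finset.sum_const, Finset.card_univ, Fintype.card_fin, nsmul_eq_mul]
  have h1 : ((2 * n - 12 : ℕ) : ℚ) = 2 * (n : ℚ) - 12 := by
    rw [Nat.cast_sub (by omega)]
    push_cast
    ring
  have h2 : (n : ℚ) ≠ 0 := by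
    have : 0 < n := by omega
    exact_mod_cast this.ne'
  rw [h1, mul_div_cancel_left₀ _ h2]
  norm_num
  ring

end Pool.Agent.R560.Repair
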